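import Pool.Agent.H68.LCS.Targets

/-!
# MP_5607ba_lc, strong transfer, part A: the compact pieces of the orbits (row KCP)
-/

set_option autoImplicit false

open Set Filter Topology
open scoped Pointwise

namespace Pool.Agent.H80.LCS

open Pool.Agent.H93.CP Pool.Agent.H7.LP Pool.Agent.H7.LQ Pool.Agent.H68.LCS

theorem pf_KCP : T_KCP := by
  intro Γ F _ _ _ _ _ _ D B t y
  have hone : (1 : Γ) ∈ D.C := Or.inr rfl
  have hcpt : IsCompact D.C := ((D.cpt 0).union (D.cpt 0).inv).union isCompact_singleton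
  refine ⟨?_, ?_, hcpt, hone, ?_, ?_⟩
  · have h1 : IsCompact (D.C * D.C) := hcpt.mul hcpt
    have hc : Continuous fun h : Γ => h • y := continuous_id.smul continuous_const
    have h2 : IsCompact ((D.C * D.C) ∩ (fun h : Γ => h • y) ⁻¹' closure (B.U t)) :=
      h1.inter_right (isClosed_closure.preimage hc)
    have h3 : KS D B t y =
        (fun h : Γ => h • y) '' ((D.C * D.C) ∩ (fun h : Γ => h • y) ⁻¹' closure (B.U t)) := by
      ext z
      constructor
      · rintro ⟨hz, h, hh, rfl⟩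
        exact ⟨h, ⟨hh, hz⟩, rfl⟩
      · rintro ⟨h, ⟨hh, hz⟩, rfl⟩
        exact ⟨hz, h, hh, rfl⟩
    rw [h3]
    exact h2.image hc
  · intro hy
    exact ⟨subset_closure hy.1, 1, ⟨1, hone, 1, hone, mul_one 1⟩, (one_smul Γ y).symm⟩
  · rintro c ((hc | hc) | hc)
    · exact Or.inl (Or.inr (by simpa using hc))
    · exact Or.inl (Or.inl hc)
    · have h1 : c = 1 := hc
      subst h1
      exact Or.inr (by simp)
  · intro w hw
    obtain ⟨c, hc, h⟩ := D.cov 0 w hw
    exact ⟨c, Or.inl (Or.inl hc), h⟩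

end Pool.Agent.H80.LCS
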